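import Pool.Agent.T2H22.DQ.AsmA
import Pool.Agent.T2H22.AR.AsmA

/-! Auxiliary lemmas for `DR/Asm.lean` (a separate file, so that the long theorems are compiled in parallel). -/

set_option autoImplicit false

open Finset

namespace Pool.Agent.T2H22.DR

open Pool.Agent.T2H22.AA
open Pool.Agent.T2H22.DF (mir mem_mir card_mir mir_SI mir_pairs)
open Pool.Agent.T2H22.AQ (lowQ)
open Pool.Agent.T2H22.DQ (LocR)
open Pool.Agent.T2H22.AR (loglog_small)

open Pool.Agent.H361R2.PP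
open Pool.Agent.W70.HR
open Pool.Agent.H862R2.PPSm5 (vv_lower HH_tendsto log_tendsto)
open Pool.Agent.H373R2.T7 (Vz pz mem_pz)
open Pool.Agent.T2H22.BG (sh sh_inj)

open Classical in
/-- the number of the good `x` -/
noncomputable def gdS (S : Finset ℕ) (τ : ℕ → ℕ) (Q : ℕ → ℕ → Prop) (c1 r X h : ℕ) : ℕ :=
  ((Ico (4 * X) (8 * X)).filter (fun x => (h + X ≤ x ∧ x < h + 2 * X) ∧
    r ≤ (S.filter (fun a => Q (x - h) a ∧ (x + τ a).Prime)).card ∧
    ∀ t : ℕ, 1 ≤ t → t ≤ c1 → (x + t).Prime → ∃ a ∈ S, τ a = t ∧ Q (x - h) a)).card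

/-- the number of the clusters -/
theorem count_leS (Q : ℕ → ℕ → Prop) (c1 : ℕ) (S S' : Finset ℕ) (hS' : S' ⊆ S) (τ : ℕ → ℕ) (hτ : Set.InjOn τ S) (r X : ℕ) (ρ : ℕ → ℝ)
    (hρ : ∀ x, 0 ≤ ρ x) (hρ1 : ∀ x, ρ x ≤ 1) (E G : Finset ℕ) (hE : ∀ N ∈ E, 6 * X ≤ N)
    (hGI : ∀ y ∈ G, X ≤ y ∧ y < 2 * X) (hG : ∀ y ∈ G, ∀ a ∈ S', Q y a) :
    ∑ n ∈ (range (8 * X)).filter (fun n => r ≤ ((S'.image τ).filter
      (fun a => (n + a).Prime)).card ∧ ∀ t ∈ Icc 1 c1 \ S'.image τ, ¬ (n + t).Prime), wI X ρ E (mir X G) n ≤ ∑ N ∈ E, (gdS S τ Q c1 r X (N - (3 * X - 1)) : ℝ) := by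
  classical
  set P : ℕ → Prop := fun n => r ≤ ((S'.image τ).filter (fun a => (n + a).Prime)).card ∧
    ∀ t ∈ Icc 1 c1 \ S'.image τ, ¬ (n + t).Prime with hP
  set I' := (Ico (4 * X) (8 * X)).filter P with hI'
  have h1 : ∑ n ∈ (range (8 * X)).filter P, wI X ρ E (mir X G) n ≤ ∑ x ∈ I', (1 : ℝ) * mm E (mir X G) x := by
    have h2 : I' = ((range (8 * X)).filter P).filter (fun x => x ∈ Ico (4 * X) (8 * X)) := by
      ext x
      rw [hI', mem_filter, mem_filter, mem_filter, mem_range, mem_Ico]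
      constructor
      · rintro ⟨a, b⟩
        exact ⟨⟨a.2, b⟩, a⟩
      · rintro ⟨⟨a, b⟩, c⟩
        exact ⟨c, b⟩
    rw [h2, sum_filter (s := (range (8 * X)).filter P)]
    apply sum_le_sum
    intro x _
    unfold wI
    split_ifs with h
    · rw [one_mul]
      calc ρ x * mm E (mir X G) x ≤ 1 * mm E (mir X G) x := mul_le_mul_of_nonneg_right (hρ1 x) (mm_nonneg _ _ _)
        _ = _ := one_mul _
    · exact le_rfl
  refine h1.trans ?_
  rw [mm_sum]
  apply sum_le_sum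
  intro N hN
  have hN6 := hE N hN
  rw [sum_comm]
  have h3 : ∀ x ∈ I', ∑ y ∈ mir X G, (if x + y = N then (1 : ℝ) else 0) ≤
      if N - (3 * X - 1) ≤ x ∧ x - (N - (3 * X - 1)) ∈ G then 1 else 0 := by
    intro x _
    by_cases h : N - (3 * X - 1) ≤ x ∧ x - (N - (3 * X - 1)) ∈ G
    · rw [if_pos h]
      have hx := hGI _ h.2
      rw [sum_eq_single (N - x)]
      · split_ifs <;> norm_num
      · intro y hy hne
        rw [if_neg (by omega)]
      · intro h'
        exfalso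
        apply h'
        rw [mem_mir hGI]
        refine ⟨by omega, by omega, ?_⟩
        rw [show 3 * X - 1 - (N - x) = x - (N - (3 * X - 1)) by omega]
        exact h.2
    · rw [if_neg h]
      apply le_of_eq
      apply sum_eq_zero
      intro y hy
      rw [if_neg]
      intro he
      apply h
      rw [mem_mir hGI] at hy
      refine ⟨by omega, ?_⟩
      rw [show x - (N - (3 * X - 1)) = 3 * X - 1 - y by omega]
      exact hy.2.2
  refine (sum_le_sum h3).trans ?_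
  rw [← sum_filter, sum_const, nsmul_eq_mul, mul_one]
  apply Nat.cast_le.2
  unfold gdS
  apply card_le_card
  intro x hx
  rw [mem_filter, hI', mem_filter] at hx
  rw [mem_filter]
  have hxG := hGI _ hx.2.2
  refine ⟨hx.1.1, ⟨by omega, by omega⟩, ?_, ?_⟩
  swap
  · intro t ht1 htc htp
    by_cases htT : t ∈ S'.image τ
    · rw [mem_image] at htT
      obtain ⟨a, ha, rfl⟩ := htT
      exact ⟨a, hS' ha, rfl, hG _ hx.2.2 a ha⟩
    · exact absurd htp (hx.1.2.2 t (mem_sdiff.2 ⟨mem_Icc.2 ⟨ht1, htc⟩, htT⟩))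
  have h4 : r ≤ ((S'.image τ).filter (fun a => (x + a).Prime)).card := hx.1.2.1
  refine h4.trans ?_
  have h5 : (S'.image τ).filter (fun a => (x + a).Prime) ⊆
      (S.filter (fun a => Q (x - (N - (3 * X - 1))) a ∧ (x + τ a).Prime)).image τ := by
    intro t ht
    rw [mem_filter, mem_image] at ht
    obtain ⟨⟨a, ha, rfl⟩, hp⟩ := ht
    rw [mem_image]
    refine ⟨a, ?_, rfl⟩
    rw [mem_filter]
    exact ⟨hS' ha, hG _ hx.2.2 a ha, hp⟩
  exact (card_le_card h5).trans card_image_le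

end Pool.Agent.T2H22.DR
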